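import Pool.Agent.ImpR.Bits
import Pool.Agent.Lib.PolyTime.ToTM2

set_option autoImplicit false

namespace Pool.Agent.GridS

open Pool.Agent.Lib.PT Pool.Agent.ImpR

/-- the first label in the concatenation of two labels -/
def fstLab (m : ℕ) (z : List Bool) : List Bool := z.take (lead z + 1 + m * lead z)

/-- the second label in the concatenation of two labels -/
def sndLab (m : ℕ) (z : List Bool) : List Bool := z.drop (lead z + 1 + m * lead z)

lemma lead_append (m w : ℕ) (N : ℕ → ℕ) (y : List Bool) : lead (lab m w N ++ y) = w := by
  unfold lab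
  rw [List.append_assoc, List.cons_append]
  exact lead_eq _ _

lemma polyTime_sndLab (m : ℕ) : PolyTime (sndLab m) := by
  have h := polyTime_lead (PolyTime.id (α := List Bool))
  exact PolyTime.drop ((h.add (PolyTime.const 1)).add ((PolyTime.const m).mul h)) PolyTime.id

lemma polyTime_fstLab (m : ℕ) : PolyTime (fstLab m) := by
  have h := polyTime_lead (PolyTime.id (α := List Bool))
  exact PolyTime.take ((h.add (PolyTime.const 1)).add ((PolyTime.const m).mul h)) PolyTime.id

/-- (C) a decoder of pairs of labels as a function of the concatenation -/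
theorem concat (m : ℕ) (dec : List Bool → List Bool → Bool)
    (hdec : PolyTime (fun p : List Bool × List Bool => dec p.1 p.2)) :
    ∃ F : List Bool → List Bool,
      Nonempty (Turing.TM2ComputableInPolyTime (fun w : List Bool => w)
        (fun w : List Bool => w) F) ∧
      ∀ (w : ℕ) (N N' : ℕ → ℕ), (∀ i < m, N i < 2 ^ w) →
        F (lab m w N ++ lab m w N') = [dec (lab m w N) (lab m w N')] := by
  refine ⟨fun z => [dec (fstLab m z) (sndLab m z)], Pool.Agent.Lib.PT.ToTM2.polyTime_toTM2 _ ?_, ?_⟩
  · have h : PolyTime (fun z : List Bool => dec (fstLab m z) (sndLab m z)) :=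
      PolyTime.comp hdec (PolyTime.pair (polyTime_fstLab m) (polyTime_sndLab m))
    exact PolyTime.cons h (PolyTime.const [])
  · intro w N N' hN
    have h1 : fstLab m (lab m w N ++ lab m w N') = lab m w N := by
      unfold fstLab
      rw [lead_append, ← length_lab hN, List.take_left]
    have h2 : sndLab m (lab m w N ++ lab m w N') = lab m w N' := by
      unfold sndLab
      rw [lead_append, ← length_lab hN, List.drop_left]
    show [dec (fstLab m (lab m w N ++ lab m w N')) (sndLab m (lab m w N ++ lab m w N'))] = _
    rw [h1, h2]

end Pool.Agent.GridS
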