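import Pool.Agent.ImpR.Bits

/-!
# The decoder: the sign of an inner product of two integer vectors

The numbers of a label are a flag, and for each of the `m` coordinates the positive and the
negative part of two integers. The sign of the inner product of the first integers of one label
and the second integers of the other one is found in polynomial time.
-/

set_option autoImplicit false

namespace Pool.Agent.GridS

open Pool.Agent.Lib.PT Pool.Agent.ImpR

/-- the sum of the products with sign plus -/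
def ps : ℕ → List Bool → List Bool → List Bool
  | 0, _, _ => []
  | m + 1, x, y => badd (ps m x y) (badd (bmul (fld (4 * m + 1) x) (fld (4 * m + 3) y))
      (bmul (fld (4 * m + 2) x) (fld (4 * m + 4) y)))

/-- the sum of the products with sign minus -/
def ns : ℕ → List Bool → List Bool → List Bool
  | 0, _, _ => []
  | m + 1, x, y => badd (ns m x y) (badd (bmul (fld (4 * m + 1) x) (fld (4 * m + 4) y))
      (bmul (fld (4 * m + 2) x) (fld (4 * m + 3) y)))

theorem polyTime_ps {α : Type*} [Enc α] {f g : α → List Bool} (hf : PolyTime f)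
    (hg : PolyTime g) (m : ℕ) : PolyTime (fun a => ps m (f a) (g a)) := by
  induction m with
  | zero => exact PolyTime.const []
  | succ m ih =>
    exact ih.badd (((polyTime_fld _ hf).bmul (polyTime_fld _ hg)).badd
      ((polyTime_fld _ hf).bmul (polyTime_fld _ hg)))

theorem polyTime_ns {α : Type*} [Enc α] {f g : α → List Bool} (hf : PolyTime f)
    (hg : PolyTime g) (m : ℕ) : PolyTime (fun a => ns m (f a) (g a)) := by
  induction m with
  | zero => exact PolyTime.const []
  | succ m ih =>
    exact ih.badd (((polyTime_fld _ hf).bmul (polyTime_fld _ hg)).badd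
      ((polyTime_fld _ hf).bmul (polyTime_fld _ hg)))

/-- is the inner product negative? -/
def neg (m : ℕ) (x y : List Bool) : Bool := !(ble (ns m x y) (ps m x y))

theorem polyTime_neg {α : Type*} [Enc α] {f g : α → List Bool} (hf : PolyTime f)
    (hg : PolyTime g) (m : ℕ) : PolyTime (fun a => neg m (f a) (g a)) :=
  ((polyTime_ns hf hg m).ble (polyTime_ps hf hg m)).not

theorem ps_sub_ns {M w : ℕ} {N N' : ℕ → ℕ} (hN : ∀ i < 4 * M + 1, N i < 2 ^ w)
    (hN' : ∀ i < 4 * M + 1, N' i < 2 ^ w) : ∀ m, m ≤ M →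
    ((bval (ps m (lab (4 * M + 1) w N) (lab (4 * M + 1) w N')) : ℕ) : ℤ) -
      (bval (ns m (lab (4 * M + 1) w N) (lab (4 * M + 1) w N')) : ℕ) =
    ∑ j ∈ Finset.range m, ((N (4 * j + 1) : ℤ) - N (4 * j + 2)) *
          ((N' (4 * j + 3) : ℤ) - N' (4 * j + 4)) := by
  intro m
  induction m with
  | zero =>
    intro _
    simp [ps, ns]
  | succ m ih =>
    intro hm
    rw [Finset.sum_range_succ, ← ih (by omega)]
    simp only [ps, ns, bval_badd, bval_bmul]
    rw [fld_lab hN (i := 4 * m + 1) (by omega), fld_lab hN (i := 4 * m + 2) (by omega),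
      fld_lab hN' (i := 4 * m + 3) (by omega), fld_lab hN' (i := 4 * m + 4) (by omega)]
    push_cast
    ring

theorem neg_lab {m w : ℕ} {N N' : ℕ → ℕ} (hN : ∀ i < 4 * m + 1, N i < 2 ^ w)
    (hN' : ∀ i < 4 * m + 1, N' i < 2 ^ w) :
    (∑ j ∈ Finset.range m, ((N (4 * j + 1) : ℤ) - N (4 * j + 2)) *
          ((N' (4 * j + 3) : ℤ) - N' (4 * j + 4)) < 0 →
        neg m (lab (4 * m + 1) w N) (lab (4 * m + 1) w N') = true) ∧
    (0 < ∑ j ∈ Finset.range m, ((N (4 * j + 1) : ℤ) - N (4 * j + 2)) *
          ((N' (4 * j + 3) : ℤ) - N' (4 * j + 4)) →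
        neg m (lab (4 * m + 1) w N) (lab (4 * m + 1) w N') = false) := by
  have h := ps_sub_ns hN hN' m le_rfl
  rw [← h]
  unfold neg
  rw [ble_eq]
  constructor
  · intro h1
    have h2 : ¬ (bval (ns m (lab (4 * m + 1) w N) (lab (4 * m + 1) w N')) ≤
        bval (ps m (lab (4 * m + 1) w N) (lab (4 * m + 1) w N'))) := by omega
    simp [h2]
  · intro h1
    have h2 : bval (ns m (lab (4 * m + 1) w N) (lab (4 * m + 1) w N')) ≤
        bval (ps m (lab (4 * m + 1) w N) (lab (4 * m + 1) w N')) := by omega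
    simp [h2]

/-- (P) the decoder: sign of an inner product of two integer vectors -/
theorem ip (m : ℕ) : ∃ dec : List Bool → List Bool → Bool,
    PolyTime (fun p : List Bool × List Bool => dec p.1 p.2) ∧
    ∀ (w : ℕ) (N N' : ℕ → ℕ), (∀ i < 4 * m + 1, N i < 2 ^ w) → (∀ i < 4 * m + 1, N' i < 2 ^ w) →
      (N 0 = 1 →
        (∑ j ∈ Finset.range m, ((N (4 * j + 1) : ℤ) - N (4 * j + 2)) *
          ((N' (4 * j + 3) : ℤ) - N' (4 * j + 4)) < 0 →
            dec (lab (4 * m + 1) w N) (lab (4 * m + 1) w N') = true) ∧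
        (0 < ∑ j ∈ Finset.range m, ((N (4 * j + 1) : ℤ) - N (4 * j + 2)) *
          ((N' (4 * j + 3) : ℤ) - N' (4 * j + 4)) →
            dec (lab (4 * m + 1) w N) (lab (4 * m + 1) w N') = false)) ∧
      (N 0 ≠ 1 → N' 0 = 1 →
        (∑ j ∈ Finset.range m, ((N' (4 * j + 1) : ℤ) - N' (4 * j + 2)) *
          ((N (4 * j + 3) : ℤ) - N (4 * j + 4)) < 0 →
            dec (lab (4 * m + 1) w N) (lab (4 * m + 1) w N') = true) ∧
        (0 < ∑ j ∈ Finset.range m, ((N' (4 * j + 1) : ℤ) - N' (4 * j + 2)) *
          ((N (4 * j + 3) : ℤ) - N (4 * j + 4)) →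
            dec (lab (4 * m + 1) w N) (lab (4 * m + 1) w N') = false)) ∧
      (N 0 ≠ 1 → N' 0 ≠ 1 → dec (lab (4 * m + 1) w N) (lab (4 * m + 1) w N') = true) := by
  refine ⟨fun x y => bif beqv (fld 0 x) [true] then neg m x y else
    (bif beqv (fld 0 y) [true] then neg m y x else true), ?_, ?_⟩
  · have h1 : PolyTime (fun p : List Bool × List Bool => p.1) := PolyTime.id.fst
    have h2 : PolyTime (fun p : List Bool × List Bool => p.2) := PolyTime.id.snd
    exact ((polyTime_fld 0 h1).beqv (PolyTime.const [true])).cond (polyTime_neg h1 h2 m)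
      (((polyTime_fld 0 h2).beqv (PolyTime.const [true])).cond (polyTime_neg h2 h1 m)
        (PolyTime.const true))
  · intro w N N' hN hN'
    have e1 : bval (fld 0 (lab (4 * m + 1) w N)) = N 0 := fld_lab hN (by omega)
    have e2 : bval (fld 0 (lab (4 * m + 1) w N')) = N' 0 := fld_lab hN' (by omega)
    have e3 : bval [true] = 1 := by simp
    have b1 : beqv (fld 0 (lab (4 * m + 1) w N)) [true] = decide (N 0 = 1) := by
      rw [beqv_eq, e1, e3]
    have b2 : beqv (fld 0 (lab (4 * m + 1) w N')) [true] = decide (N' 0 = 1) := by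
      rw [beqv_eq, e2, e3]
    refine ⟨fun h0 => ?_, fun h0 h0' => ?_, fun h0 h0' => ?_⟩
    · show (_ → (bif _ then _ else _) = _) ∧ (_ → (bif _ then _ else _) = _)
      rw [b1, decide_eq_true h0]
      exact neg_lab hN hN'
    · show (_ → (bif _ then _ else _) = _) ∧ (_ → (bif _ then _ else _) = _)
      rw [b1, b2, decide_eq_false h0, decide_eq_true h0']
      exact neg_lab hN' hN
    · show (bif _ then _ else _) = _
      rw [b1, b2, decide_eq_false h0, decide_eq_false h0']
      rfl

end Pool.Agent.GridS
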