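import Mathlib

set_option autoImplicit false

namespace Pool.Agent.GridS

/-- (G) the disk inequality is linear in monomials -/
theorem monomials (k : ℕ) : ∃ (m : ℕ) (c0 : Fin m) (mon : (Fin k → ℤ) → Fin m → ℤ),
    (∀ x, mon x c0 = 1) ∧
    (∀ (x : Fin k → ℤ) (H : ℤ), 1 ≤ H → (∀ i, |x i| ≤ H) → ∀ j, |mon x j| ≤ H ^ 2) ∧
    ∀ (g : Fin k → EuclideanSpace ℝ (Fin 2)) (b : EuclideanSpace ℝ (Fin 2)),
      ∃ w : Fin m → ℝ, ∀ x : Fin k → ℤ,
        dist (∑ i, (x i : ℝ) • g i) b ≤ 1 ↔ ∑ j, (mon x j : ℝ) * w j ≤ 0 := by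
  classical
  set ι := Option (Fin k ⊕ Fin k × Fin k) with hι
  set e : ι ≃ Fin (Fintype.card ι) := Fintype.equivFin ι with he
  set mo : (Fin k → ℤ) → ι → ℤ := fun x o =>
    match o with
    | none => 1
    | some (Sum.inl i) => x i
    | some (Sum.inr (i, j)) => x i * x j with hmo
  refine ⟨Fintype.card ι, e none, fun x j => mo x (e.symm j), ?_, ?_, ?_⟩
  · intro x
    simp [hmo]
  · intro x H hH hx j
    have hH2 : H ≤ H ^ 2 := by nlinarith
    show |mo x (e.symm j)| ≤ H ^ 2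
    rcases e.symm j with _ | i | ⟨i, l⟩
    · simp only [hmo]
      rw [abs_one]; nlinarith
    · simp only [hmo]
      exact (hx i).trans hH2
    · simp only [hmo]
      rw [abs_mul, sq]
      exact mul_le_mul (hx i) (hx l) (abs_nonneg _) (by linarith)
  · intro g b
    set wo : ι → ℝ := fun o =>
      match o with
      | none => ‖b‖ ^ 2 - 1
      | some (Sum.inl i) => -2 * inner ℝ (g i) b
      | some (Sum.inr (i, j)) => inner ℝ (g i) (g j) with hwo
    refine ⟨fun j => wo (e.symm j), fun x => ?_⟩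
    have h1 : ∑ j, ((mo x (e.symm j) : ℤ) : ℝ) * wo (e.symm j) = ∑ o : ι, ((mo x o : ℤ) : ℝ) * wo o :=
      Equiv.sum_comp e.symm (fun o => ((mo x o : ℤ) : ℝ) * wo o)
    have h2 : ∑ o : ι, ((mo x o : ℤ) : ℝ) * wo o = ‖(∑ i, (x i : ℝ) • g i) - b‖ ^ 2 - 1 := by
      have h3 : ∑ o : ι, ((mo x o : ℤ) : ℝ) * wo o
          = (‖b‖ ^ 2 - 1) + (∑ i, (x i : ℝ) * (-2 * inner ℝ (g i) b)
            + ∑ p : Fin k × Fin k, ((x p.1 : ℝ) * (x p.2 : ℝ)) * inner ℝ (g p.1) (g p.2)) := by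
        rw [Fintype.sum_option, Fintype.sum_sum_type]
        simp [hmo, hwo]
      rw [h3, norm_sub_sq_real, Fintype.sum_prod_type]
      have h4 : inner ℝ (∑ i, (x i : ℝ) • g i) b = ∑ i, (x i : ℝ) * inner ℝ (g i) b := by
        rw [sum_inner]
        refine Finset.sum_congr rfl (fun i _ => ?_)
        rw [real_inner_smul_left]
      have h5 : ‖∑ i, (x i : ℝ) • g i‖ ^ 2
          = ∑ i, ∑ j, ((x i : ℝ) * (x j : ℝ)) * inner ℝ (g i) (g j) := by
        rw [← real_inner_self_eq_norm_sq, sum_inner]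
        refine Finset.sum_congr rfl (fun i _ => ?_)
        rw [inner_sum]
        refine Finset.sum_congr rfl (fun j _ => ?_)
        rw [real_inner_smul_left, real_inner_smul_right]; ring
      rw [h4, h5, Finset.mul_sum]
      have h6 : ∑ i, (x i : ℝ) * (-2 * inner ℝ (g i) b) = - ∑ i, 2 * ((x i : ℝ) * inner ℝ (g i) b) := by
        rw [← Finset.sum_neg_distrib]
        exact Finset.sum_congr rfl (fun i _ => by ring)
      rw [h6]
      ring
    show _ ↔ ∑ j, ((mo x (e.symm j) : ℤ) : ℝ) * wo (e.symm j) ≤ 0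
    rw [h1, h2, dist_eq_norm, sub_nonpos]
    exact (pow_le_one_iff_of_nonneg (norm_nonneg _) two_ne_zero).symm

end Pool.Agent.GridS
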