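import Mathlib

set_option autoImplicit false

namespace Pool.Agent.GridS

/-- (S) sizes -/
theorem size (B e m : ℕ) : ∃ C : ℕ, ∀ n : ℕ, 2 ≤ n → ∃ w : ℕ, B * n ^ e < 2 ^ w ∧ 0 < w ∧
    w + 1 + m * w ≤ C * Nat.log 2 n := by
  refine ⟨(m + 1) * (Nat.size B + 2 * e + 1) + 1, fun n hn => ?_⟩
  have hL : 1 ≤ Nat.log 2 n := Nat.log_pos (by norm_num) hn
  have hn1 : n < 2 ^ (Nat.log 2 n + 1) := Nat.lt_pow_succ_log_self (by norm_num) n
  generalize Nat.log 2 n = L at hL hn1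
  have hB : B < 2 ^ Nat.size B := Nat.lt_size_self B
  generalize Nat.size B = s at hB
  refine ⟨s + e * (L + 1) + 1, ?_, by omega, ?_⟩
  · calc B * n ^ e ≤ B * (2 ^ (L + 1)) ^ e := Nat.mul_le_mul_left _ (Nat.pow_le_pow_left hn1.le e)
      _ < 2 ^ s * (2 ^ (L + 1)) ^ e := Nat.mul_lt_mul_of_pos_right hB (by positivity)
      _ = 2 ^ (s + e * (L + 1)) := by rw [← pow_mul, ← pow_add, mul_comm (L + 1) e]
      _ ≤ 2 ^ (s + e * (L + 1) + 1) := Nat.pow_le_pow_right (by norm_num) (by omega)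
  · have h1 : s + e * (L + 1) + 1 ≤ (s + 2 * e + 1) * L := by nlinarith
    calc s + e * (L + 1) + 1 + 1 + m * (s + e * (L + 1) + 1)
        = (m + 1) * (s + e * (L + 1) + 1) + 1 := by ring
      _ ≤ (m + 1) * ((s + 2 * e + 1) * L) + L := Nat.add_le_add (Nat.mul_le_mul_left _ h1) hL
      _ = ((m + 1) * (s + 2 * e + 1) + 1) * L := by ring

end Pool.Agent.GridS
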