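import Pool.Agent.Qdec.Lp

set_option autoImplicit false

namespace Pool.Agent.GridS

open Filter Topology

/-- (R) small integer coefficients -/
theorem small {ι : Type*} [Finite ι] (m M : ℕ) (hM : 1 ≤ M) (r : ι → Fin m → ℤ)
    (hr : ∀ i j, |r i j| ≤ M) (c0 : Fin m) (hc : ∀ i, r i c0 = 1) (w : Fin m → ℝ) :
    ∃ z : Fin m → ℤ, (∀ j, |z j| ≤ (m.factorial : ℤ) * (M : ℤ) ^ m) ∧
      ∀ i, ((∑ j, (r i j : ℝ) * w j ≤ 0) → ∑ j, r i j * z j < 0) ∧
        (0 < ∑ j, (r i j : ℝ) * w j → 0 < ∑ j, r i j * z j) := by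
  classical
  -- a number smaller than half of all positive sums
  obtain ⟨δ, hδ0, hδ⟩ : ∃ δ : ℝ, 0 < δ ∧ ∀ i, 0 < ∑ j, (r i j : ℝ) * w j →
      2 * δ < ∑ j, (r i j : ℝ) * w j := by
    have h1 : ∀ i, ∀ᶠ δ : ℝ in 𝓝[>] 0, 0 < ∑ j, (r i j : ℝ) * w j →
        2 * δ < ∑ j, (r i j : ℝ) * w j := by
      intro i
      by_cases h : 0 < ∑ j, (r i j : ℝ) * w j
      · have h2 : ∀ᶠ δ : ℝ in 𝓝[>] 0, δ < (∑ j, (r i j : ℝ) * w j) / 2 :=
          nhdsWithin_le_nhds (Iio_mem_nhds (half_pos h))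
        filter_upwards [h2] with δ hδ _
        linarith
      · exact Eventually.of_forall fun δ h' => absurd h' h
    obtain ⟨δ, h2, h3⟩ := ((eventually_all.2 h1).and self_mem_nhdsWithin).exists
    exact ⟨δ, h3, h2⟩
  have hη : 0 < δ / (m * M + 1) := by positivity
  -- rational approximation of the perturbed vector
  have happ : ∀ j : Fin m, ∃ q : ℚ, |(q : ℝ) - (w j - if j = c0 then δ else 0)| < δ / (m * M + 1) := by
    intro j
    obtain ⟨q, hq1, hq2⟩ := exists_rat_btwn
      (show (w j - (if j = c0 then δ else 0)) - δ / (m * M + 1) <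
        (w j - if j = c0 then δ else 0) + δ / (m * M + 1) by linarith)
    exact ⟨q, abs_lt.2 ⟨by linarith, by linarith⟩⟩
  choose q hq using happ
  have hsum : ∀ i, |∑ j, (r i j : ℝ) * q j - (∑ j, (r i j : ℝ) * w j - δ)| < δ := by
    intro i
    have e1 : ∑ j, (r i j : ℝ) * (w j - if j = c0 then δ else 0) =
        ∑ j, (r i j : ℝ) * w j - δ := by
      simp only [mul_sub, Finset.sum_sub_distrib]
      congr 1
      rw [Finset.sum_eq_single c0]
      · rw [if_pos rfl, hc i]
        simp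
      · intro j _ hj
        rw [if_neg hj, mul_zero]
      · intro h
        exact absurd (Finset.mem_univ _) h
    rw [← e1, ← Finset.sum_sub_distrib]
    calc |∑ j, ((r i j : ℝ) * q j - (r i j : ℝ) * (w j - if j = c0 then δ else 0))|
        ≤ ∑ j, |(r i j : ℝ) * q j - (r i j : ℝ) * (w j - if j = c0 then δ else 0)| :=
          Finset.abs_sum_le_sum_abs _ _
      _ ≤ ∑ _j : Fin m, (M : ℝ) * (δ / (m * M + 1)) := by
          refine Finset.sum_le_sum fun j _ => ?_
          rw [← mul_sub, abs_mul]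
          have h1 : |(r i j : ℝ)| ≤ M := by exact_mod_cast hr i j
          exact mul_le_mul h1 (hq j).le (abs_nonneg _) (Nat.cast_nonneg _)
      _ = (m * M) * (δ / (m * M + 1)) := by
          rw [Finset.sum_const, Finset.card_univ, Fintype.card_fin, nsmul_eq_mul]
          ring
      _ < δ := by
          rw [mul_div_assoc', div_lt_iff₀ (by positivity)]
          nlinarith
  obtain ⟨z, hz1, hz2⟩ := Pool.Agent.Qdec.lp m M hM q
  refine ⟨z, hz1, fun i => ⟨fun h => ?_, fun h => ?_⟩⟩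
  · have h1 := (abs_lt.1 (hsum i)).2
    have h2 : (∑ j, (r i j : ℝ) * q j) < 0 := by linarith
    have h3 := hz2 (fun j => - r i j) (fun j => by rw [abs_neg]; exact hr i j) (by
      have h4 : ((∑ j, (r i j : ℚ) * q j : ℚ) : ℝ) < 0 := by
        push_cast
        exact h2
      have h5 : (∑ j, (r i j : ℚ) * q j : ℚ) < 0 := by exact_mod_cast h4
      have h6 : ∑ j, (((- r i j : ℤ)) : ℚ) * q j = - ∑ j, (r i j : ℚ) * q j := by
        rw [← Finset.sum_neg_distrib]
        exact Finset.sum_congr rfl fun j _ => by push_cast; ring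
      rw [h6]
      linarith)
    have h7 : ∑ j, (- r i j) * z j = - ∑ j, r i j * z j := by
      rw [← Finset.sum_neg_distrib]
      exact Finset.sum_congr rfl fun j _ => by ring
    rw [h7] at h3
    linarith
  · have h1 := (abs_lt.1 (hsum i)).1
    have h8 := hδ i h
    have h2 : 0 < (∑ j, (r i j : ℝ) * q j) := by linarith
    refine hz2 (fun j => r i j) (hr i) ?_
    have h4 : (0 : ℝ) < ((∑ j, (r i j : ℚ) * q j : ℚ) : ℝ) := by
      push_cast
      exact h2
    exact_mod_cast h4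

end Pool.Agent.GridS
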